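import Pool.Agent.Q228.UR.URg

/-!
# The tree is complete
-/

set_option autoImplicit false

noncomputable section

namespace Pool.Agent.Q228.UR

open Set Finset Filter Topology

lemma hh_le (w w' : ℕ → Bool) : hh w w' ≤ Hi := H_le _

lemma gg_lower {w w' : ℕ → Bool} {n : ℕ} {s t : ℝ} (h : ∀ j < n ^ 2, w j = w' j) :
    min (min s t) (H n) ≤ gg ⟨w, s⟩ ⟨w', t⟩ := by
  by_cases hw : w = w'
  · subst hw
    rw [gg_ray]
    exact min_le_left _ _
  · rw [gg_diff (p := ⟨w, s⟩) (q := ⟨w', t⟩) hw]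
    exact min_le_min le_rfl (hh_ge h hw)

lemma abs_t_le (p q : P) : |p.t - q.t| ≤ dist p q := by
  rw [dist_P]
  have h1 := gg_left p q
  have h2 := gg_right p q
  rw [abs_le]
  constructor <;> linarith

lemma complete_P : CompleteSpace P := by
  refine Metric.complete_of_cauchySeq_tendsto fun u hu => ?_
  have ht : CauchySeq fun n => (u n).t := by
    rw [Metric.cauchySeq_iff] at hu ⊢
    intro ε hε
    obtain ⟨N, hN⟩ := hu ε hε
    refine ⟨N, fun m hm n hn => ?_⟩
    rw [Real.dist_eq]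
    exact (abs_t_le _ _).trans_lt (hN m hm n hn)
  obtain ⟨τ, hτ⟩ := cauchySeq_tendsto_of_complete ht
  rw [Metric.tendsto_atTop] at hτ
  rcases le_or_gt τ Hi with hH | hH
  · obtain ⟨ω, φ, hφ, hω⟩ := CompactSpace.tendsto_subseq fun n => (u n).w
    refine ⟨⟨ω, τ⟩, tendsto_nhds_of_cauchySeq_of_subseq hu hφ.tendsto_atTop ?_⟩
    rw [Metric.tendsto_atTop]
    intro ε hε
    obtain ⟨k, hk⟩ := ((tendsto_order.1 H_tendsto).1 (Hi - ε / 4) (by linarith)).exists
    obtain ⟨N1, hN1⟩ := hτ (ε / 4) (by positivity)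
    have h1 : ∀ᶠ n in atTop, ∀ j ∈ Finset.range (k ^ 2), (u (φ n)).w j = ω j := by
      rw [Filter.eventually_all_finset]
      intro j _
      have h2 : Tendsto (fun n => (u (φ n)).w j) atTop (𝓝 (ω j)) :=
        ((continuous_apply j).tendsto ω).comp hω
      have h3 : {ω j} ∈ 𝓝 (ω j) := isOpen_discrete {ω j} |>.mem_nhds rfl
      exact h2 h3
    rw [eventually_atTop] at h1
    obtain ⟨N2, hN2⟩ := h1
    refine ⟨max N1 N2, fun n hn => ?_⟩
    have h4 := hN2 n (le_of_max_le_right hn)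
    have h5 := hN1 (φ n) ((le_of_max_le_left hn).trans (hφ.id_le n))
    rw [Real.dist_eq, abs_lt] at h5
    have h6 : min (min (u (φ n)).t τ) (H k) ≤ gg (u (φ n)) ⟨ω, τ⟩ :=
      gg_lower (w := (u (φ n)).w) (s := (u (φ n)).t) fun j hj => h4 j (Finset.mem_range.2 hj)
    have h7 : τ - ε / 4 ≤ min (min (u (φ n)).t τ) (H k) :=
      le_min (le_min (by linarith) (by linarith)) (by linarith)
    show dist (u (φ n)) ⟨ω, τ⟩ < ε
    rw [dist_P]
    show (u (φ n)).t + τ - 2 * gg (u (φ n)) ⟨ω, τ⟩ < ε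
    linarith
  · rw [Metric.cauchySeq_iff] at hu
    obtain ⟨N1, hN1⟩ := hu ((τ - Hi) / 2) (by linarith)
    obtain ⟨N2, hN2⟩ := hτ ((τ - Hi) / 2) (by linarith)
    set N := max N1 N2 with hN
    have hw : ∀ n, N ≤ n → (u n).w = (u N).w := by
      intro n hn
      by_contra hne
      have h1 := hN1 n ((le_max_left _ _).trans hn) N (le_max_left _ _)
      have h2 := hN2 n ((le_max_right _ _).trans hn)
      have h3 := hN2 N (le_max_right _ _)
      rw [Real.dist_eq, abs_lt] at h2 h3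
      rw [dist_P] at h1
      have h4 := (gg_hh hne).trans (hh_le _ _)
      linarith
    refine ⟨⟨(u N).w, τ⟩, ?_⟩
    rw [Metric.tendsto_atTop]
    intro ε hε
    obtain ⟨N3, hN3⟩ := hτ ε hε
    refine ⟨max N N3, fun n hn => ?_⟩
    have h1 := hN3 n (le_of_max_le_right hn)
    have h2 : gg (u n) ⟨(u N).w, τ⟩ = min (u n).t τ :=
      gg_same (q := ⟨(u N).w, τ⟩) (hw n (le_of_max_le_left hn))
    rw [dist_P, h2]
    show (u n).t + τ - 2 * min (u n).t τ < ε
    rw [Real.dist_eq, abs_lt] at h1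
    rcases le_total (u n).t τ with h | h
    · rw [min_eq_left h]; linarith
    · rw [min_eq_right h]; linarith

theorem complete_T : CompleteSpace T := by
  have := complete_P
  infer_instance

end Pool.Agent.Q228.UR
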