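import Pool.Agent.Q228.UR.Split

/-!
# Condition (a) for `{γ_m}`
-/

set_option autoImplicit false

noncomputable section

namespace Pool.Agent.Q228.UR

open Set Finset Filter Topology MeasureTheory
open Pool.Agent.H266R3.LF (Lip0 dlt dlt_mem dlt_apply LFree FreeSp norm_dlt_sub_le inc)

lemma seg_cases {w w' u : ℕ → Bool} {t t' r : ℝ} (h : mk u r ∈ seg (mk w t) (mk w' t')) :
    (gg ⟨w, t⟩ ⟨w', t'⟩ ≤ r ∧ r ≤ t ∧ (u ≠ w → r ≤ hh u w)) ∨
    (gg ⟨w, t⟩ ⟨w', t'⟩ ≤ r ∧ r ≤ t' ∧ (u ≠ w' → r ≤ hh u w')) := by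
  unfold seg at h
  rw [Set.mem_ofPred_eq, dist_mk', dist_mk', dist_mk'] at h
  have a1 := gg_left ⟨w, t⟩ ⟨u, r⟩
  have a2 := gg_right ⟨w, t⟩ ⟨u, r⟩
  have a3 := gg_left ⟨u, r⟩ ⟨w', t'⟩
  have a4 := gg_right ⟨u, r⟩ ⟨w', t'⟩
  have a5 := gg_ultra ⟨w, t⟩ ⟨u, r⟩ ⟨w', t'⟩
  simp only at a1 a2 a3 a4
  rcases min_le_iff.1 a5 with h1 | h1
  · right
    have e : r ≤ gg ⟨u, r⟩ ⟨w', t'⟩ := by linarith
    refine ⟨by linarith, by linarith, fun hne => e.trans ?_⟩
    exact gg_hh (p := ⟨u, r⟩) (q := ⟨w', t'⟩) hne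
  · left
    have e : r ≤ gg ⟨w, t⟩ ⟨u, r⟩ := by linarith
    refine ⟨by linarith, by linarith, fun hne => e.trans ?_⟩
    rw [gg_comm]
    exact gg_hh (p := ⟨u, r⟩) (q := ⟨w, t⟩) hne

/-- restriction of a branch to a word -/
def res (m : ℕ) (w : ℕ → Bool) : V m := fun j => w j

lemma eq_res {m : ℕ} {v : V m} {w : ℕ → Bool} {r : ℝ} (hr : H m < r)
    (h : ext v ≠ w → r ≤ hh (ext v) w) : v = res m w := by
  funext j
  have := coord_eq h hr j j.2
  rwa [ext_lt v j.2] at this

lemma ind_int {a b c t : ℝ} (hab : a ≤ b) (hct : c ≤ t) :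
    ∫ r in a..b, (Set.Icc c t).indicator (fun _ => (1 : ℝ)) r ≤ t - c := by
  rw [intervalIntegral.integral_of_le hab]
  have hi : Integrable ((Set.Icc c t).indicator (fun _ => (1 : ℝ))) volume := by
    rw [integrable_indicator_iff measurableSet_Icc]
    exact integrableOn_const (by simp)
  calc _ ≤ ∫ r, (Set.Icc c t).indicator (fun _ => (1 : ℝ)) r :=
        setIntegral_le_integral hi (Eventually.of_forall fun r =>
          Set.indicator_nonneg (fun _ _ => zero_le_one) r)
    _ = t - c := by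
        rw [integral_indicator measurableSet_Icc, setIntegral_const]
        simp [hct]

lemma ind_ii (a b c t : ℝ) :
    IntervalIntegrable ((Set.Icc c t).indicator (fun _ => (1 : ℝ))) volume a b := by
  refine (intervalIntegrable_const (c := (1 : ℝ))).mono_fun
    (measurable_const.indicator measurableSet_Icc).aestronglyMeasurable ?_
  refine Eventually.of_forall fun r => ?_
  show ‖(Set.Icc c t).indicator (fun _ => (1 : ℝ)) r‖ ≤ ‖(1 : ℝ)‖
  rw [norm_one, Real.norm_eq_abs, abs_of_nonneg (Set.indicator_nonneg (fun _ _ => zero_le_one) r)]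
  exact Set.indicator_le' (fun _ _ => le_rfl) (fun _ _ => zero_le_one) r

/-- the union of the segments -/
def segs {n : ℕ} (x y : Fin n → T) (I : Finset (Fin n)) : Set T := ⋃ i ∈ I, seg (x i) (y i)

lemma segs_meas {n : ℕ} (x y : Fin n → T) (I : Finset (Fin n)) (w : ℕ → Bool) :
    MeasurableSet (mk w ⁻¹' segs x y I) := by
  have h : IsClosed (segs x y I) := isClosed_biUnion_finset fun i _ => seg_closed _ _
  exact (h.preimage (isometry_mk w).continuous).measurableSet

theorem sum_cut_le (m : ℕ) {n : ℕ} (I : Finset (Fin n)) (x y : Fin n → T)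
    {φ : (ℕ → Bool) → ℝ → ℝ} (hφ : Good φ) :
    ∑ v : V m, |prim (cut (segs x y I) φ) (ext v) (H (m + 1)) -
      prim (cut (segs x y I) φ) (ext v) (H m)| ≤ ∑ i ∈ I, dist (x i) (y i) := by
  classical
  choose w t hx using fun i => exists_mk (x i)
  choose w' t' hy using fun i => exists_mk (y i)
  set c : Fin n → ℝ := fun i => gg ⟨w i, t i⟩ ⟨w' i, t' i⟩ with hc
  have hct : ∀ i, c i ≤ t i := fun i => gg_left _ _
  have hct' : ∀ i, c i ≤ t' i := fun i => gg_right _ _
  set A : Fin n → ℝ → ℝ := fun i => (Set.Icc (c i) (t i)).indicator (fun _ => (1 : ℝ)) with hA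
  set B : Fin n → ℝ → ℝ := fun i => (Set.Icc (c i) (t' i)).indicator (fun _ => (1 : ℝ)) with hB
  have hA0 : ∀ i r, 0 ≤ A i r := fun i r => Set.indicator_nonneg (fun _ _ => zero_le_one) r
  have hB0 : ∀ i r, 0 ≤ B i r := fun i r => Set.indicator_nonneg (fun _ _ => zero_le_one) r
  have hg : Good (cut (segs x y I) φ) := cut_good (segs_meas x y I) hφ
  have hH : H m ≤ H (m + 1) := H_mono (by omega)
  have hpt : ∀ r, H m < r → ∑ v : V m, |cut (segs x y I) φ (ext v) r| ≤
      ∑ i ∈ I, (A i r + B i r) := by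
    intro r hr
    have h1 : ∀ v : V m, |cut (segs x y I) φ (ext v) r| ≤
        ∑ i ∈ I, ((if v = res m (w i) then A i r else 0) +
          (if v = res m (w' i) then B i r else 0)) := by
      intro v
      have hnn : ∀ i ∈ I, 0 ≤ (if v = res m (w i) then A i r else 0) +
          (if v = res m (w' i) then B i r else 0) := by
        intro i _
        have := hA0 i r
        have := hB0 i r
        split_ifs <;> linarith
      by_cases hv : mk (ext v) r ∈ segs x y I
      · have hv' := hv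
        unfold segs at hv'
        rw [Set.mem_iUnion₂] at hv'
        obtain ⟨i, hi, hiv⟩ := hv'
        refine le_trans (hg.bd _ _) (le_trans ?_ (Finset.single_le_sum hnn hi))
        rw [hx i, hy i] at hiv
        rcases seg_cases hiv with ⟨b1, b2, b3⟩ | ⟨b1, b2, b3⟩
        · rw [if_pos (eq_res hr b3)]
          have b4 : r ∈ Set.Icc (c i) (t i) := ⟨b1, b2⟩
          have : A i r = 1 := Set.indicator_of_mem b4 _
          rw [this]
          have := hB0 i r
          split_ifs <;> linarith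
        · have h2 : (if v = res m (w' i) then B i r else 0) = 1 := by
            rw [if_pos (eq_res hr b3)]
            have b4 : r ∈ Set.Icc (c i) (t' i) := ⟨b1, b2⟩
            exact Set.indicator_of_mem b4 _
          rw [h2]
          have := hA0 i r
          split_ifs <;> linarith
      · have : cut (segs x y I) φ (ext v) r = 0 := by
          unfold cut
          rw [if_neg hv]
        rw [this, abs_zero]
        exact Finset.sum_nonneg hnn
    refine (Finset.sum_le_sum fun v _ => h1 v).trans ?_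
    rw [Finset.sum_comm]
    refine Finset.sum_le_sum fun i _ => ?_
    rw [Finset.sum_add_distrib]
    simp
  have h2 : ∑ v : V m, |prim (cut (segs x y I) φ) (ext v) (H (m + 1)) -
      prim (cut (segs x y I) φ) (ext v) (H m)| ≤
      ∫ r in (H m)..(H (m + 1)), ∑ v : V m, |cut (segs x y I) φ (ext v) r| := by
    rw [intervalIntegral.integral_finsetSum (fun v _ => (hg.ii (ext v) _ _).abs)]
    refine Finset.sum_le_sum fun v _ => ?_
    rw [prim_sub hg]
    exact intervalIntegral.abs_integral_le_integral_abs hH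
  have hAB : ∀ i, IntervalIntegrable (fun r => A i r + B i r) volume (H m) (H (m + 1)) :=
    fun i => (ind_ii _ _ _ _).add (ind_ii _ _ _ _)
  have h3 : ∫ r in (H m)..(H (m + 1)), ∑ v : V m, |cut (segs x y I) φ (ext v) r| ≤
      ∫ r in (H m)..(H (m + 1)), ∑ i ∈ I, (A i r + B i r) := by
    refine intervalIntegral.integral_mono_on_of_le_Ioo hH ?_ ?_ fun r hr => hpt r hr.1
    · have := IntervalIntegrable.sum (μ := volume) (a := H m) (b := H (m + 1))
        (Finset.univ : Finset (V m)) (f := fun v r => |cut (segs x y I) φ (ext v) r|)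
        (fun v _ => (hg.ii (ext v) _ _).abs)
      refine this.congr fun r _ => ?_
      rw [Finset.sum_apply]
    · have := IntervalIntegrable.sum (μ := volume) (a := H m) (b := H (m + 1))
        I (f := fun i r => A i r + B i r) (fun i _ => hAB i)
      refine this.congr fun r _ => ?_
      rw [Finset.sum_apply]
  refine h2.trans (h3.trans ?_)
  rw [intervalIntegral.integral_finsetSum (fun i _ => hAB i)]
  refine Finset.sum_le_sum fun i _ => ?_
  rw [intervalIntegral.integral_add (ind_ii _ _ _ _) (ind_ii _ _ _ _)]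
  have e1 := ind_int hH (hct i)
  have e2 := ind_int hH (hct' i)
  have e3 : dist (x i) (y i) = (t i - c i) + (t' i - c i) := by
    rw [hx i, hy i, dist_mk']; ring
  rw [e3]
  exact add_le_add e1 e2

/-- the molecule -/
def mol (x y : T) : FreeSp T o := (dist x y)⁻¹ • (dl x - dl y)

lemma ev_mol (f : Lip0 T o) (x y : T) : ev f (mol x y) = (dist x y)⁻¹ * (f.fn x - f.fn y) := by
  unfold mol
  rw [ev_smul, ev_sub, ev_dl, ev_dl]

lemma ev_mol_le {f : Lip0 T o} (hf : ‖f‖ ≤ 1) {x y : T} (h : x ≠ y) : |ev f (mol x y)| ≤ 1 := by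
  rw [ev_mol, abs_mul, abs_inv, abs_of_pos (dist_pos.2 h), inv_mul_le_iff₀ (dist_pos.2 h), mul_one]
  exact (f.abs_sub_le x y).trans (mul_le_of_le_one_left dist_nonneg hf)

lemma exists_norming (γ : FreeSp T o) {η : ℝ} (hη : 0 < η) : ∃ f : Lip0 T o, ‖f‖ ≤ 1 ∧
    ‖γ‖ - η ≤ ev f γ := by
  have h : ‖γ‖ - η < ‖(γ.1 : StrongDual ℝ (Lip0 T o))‖ := by
    have : ‖γ‖ = ‖(γ.1 : StrongDual ℝ (Lip0 T o))‖ := rfl
    rw [← this]; linarith
  obtain ⟨f, hf1, hf2⟩ := ContinuousLinearMap.exists_lt_apply_of_lt_opNorm _ h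
  rw [Real.norm_eq_abs] at hf2
  rcases abs_cases (γ.1 f) with ⟨h1, -⟩ | ⟨h1, -⟩
  · exact ⟨f, hf1.le, by rw [h1] at hf2; exact hf2.le⟩
  · refine ⟨-f, by rw [norm_neg]; exact hf1.le, ?_⟩
    have : ev (-f) γ = - γ.1 f := map_neg (γ.1) f
    rw [this]
    rw [h1] at hf2
    exact hf2.le

theorem condA_aux {n : ℕ} (a : Fin n → ℝ) (x y : Fin n → T) (hxy : ∀ i, x i ≠ y i)
    (hγ : ‖∑ i, a i • mol (x i) (y i)‖ = ∑ i, |a i|) (I : Finset (Fin n)) (m : ℕ) :
    ∑ i ∈ I, |a i| ≤ ∑ i ∈ I, dist (x i) (y i) + ‖∑ i, a i • mol (x i) (y i) - gam m‖ := by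
  classical
  set γ := ∑ i, a i • mol (x i) (y i) with hγdef
  refine le_of_forall_pos_le_add fun η hη => ?_
  obtain ⟨f, hf, hfγ⟩ := exists_norming γ hη
  set S := segs x y I with hS
  have hg : Good (cut S (D f)) := cut_good (segs_meas x y I) (D_good hf)
  have hk : Good (cut Sᶜ (D f)) := cut_good (S := Sᶜ) (fun w => (segs_meas x y I w).compl) (D_good hf)
  have hsum : ∀ z, f.fn z = (lipG hg).fn z + (lipG hk).fn z := by
    intro z
    obtain ⟨w, t, rfl⟩ := exists_mk z
    rw [lipG_fn, lipG_fn, ← prim_D hf]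
    exact (cut_add (segs_meas x y I) (D_good hf) w t).symm
  have hev : ∀ F : Lip0 T o, ev F γ = ∑ i, a i * ev F (mol (x i) (y i)) := by
    intro F
    rw [hγdef, ev_sum]
    exact Finset.sum_congr rfl fun i _ => ev_smul _ _ _
  have h1 : ev f γ = ev (lipG hg) γ + ev (lipG hk) γ := by
    rw [hev, hev, hev, ← Finset.sum_add_distrib]
    refine Finset.sum_congr rfl fun i _ => ?_
    rw [ev_mol, ev_mol, ev_mol, hsum, hsum]; ring
  have h2 : ev (lipG hk) γ ≤ ∑ i ∈ Iᶜ, |a i| := by
    rw [hev, ← Finset.sum_add_sum_compl I]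
    have e : ∑ i ∈ I, a i * ev (lipG hk) (mol (x i) (y i)) = 0 := by
      refine Finset.sum_eq_zero fun i hi => ?_
      have : (lipG hk).fn (x i) = (lipG hk).fn (y i) :=
        cut_seg hk (Set.subset_iUnion₂ (s := fun i (_ : i ∈ I) => seg (x i) (y i)) i hi)
      rw [ev_mol, this, sub_self, mul_zero, mul_zero]
    rw [e, zero_add]
    refine Finset.sum_le_sum fun i _ => (le_abs_self _).trans ?_
    rw [abs_mul]
    exact mul_le_of_le_one_right (abs_nonneg _) (ev_mol_le (lipG_norm hk) (hxy i))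
  have h3 : |ev (lipG hg) (γ - gam m)| ≤ ‖γ - gam m‖ :=
    (ev_le _ _).trans (mul_le_of_le_one_right (norm_nonneg _) (lipG_norm hg))
  have h4 : |ev (lipG hg) (gam m)| ≤ ∑ i ∈ I, dist (x i) (y i) := by
    refine le_trans ?_ (sum_cut_le m I x y (D_good hf))
    set K : V m → ℝ := fun v => |prim (cut S (D f)) (ext v) (H (m + 1)) -
      prim (cut S (D f)) (ext v) (H m)| with hK
    have hb : ∀ v : V m, |(sg v / 2) * ((lipG hg).fn (top v) - (lipG hg).fn (top (fl v)))| ≤
        (K v + K (fl v)) / 2 := by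
      intro v
      rw [abs_mul, abs_div, abs_sg, abs_of_pos (by norm_num : (0 : ℝ) < 2)]
      have e1 : (lipG hg).fn (top v) - (lipG hg).fn (top (fl v)) =
          (prim (cut S (D f)) (ext v) (H (m + 1)) - prim (cut S (D f)) (ext v) (H m)) -
          (prim (cut S (D f)) (ext (fl v)) (H (m + 1)) -
            prim (cut S (D f)) (ext (fl v)) (H m)) := by
        unfold top
        rw [lipG_fn, lipG_fn]
        exact prim_diff hg _ _ fun _ => by rw [hh_fl]
      rw [e1]
      have e2 : |(prim (cut S (D f)) (ext v) (H (m + 1)) - prim (cut S (D f)) (ext v) (H m)) -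
          (prim (cut S (D f)) (ext (fl v)) (H (m + 1)) -
            prim (cut S (D f)) (ext (fl v)) (H m))| ≤ K v + K (fl v) := abs_sub _ _
      linarith
    rw [ev_gam]
    refine (Finset.abs_sum_le_sum_abs _ _).trans ((Finset.sum_le_sum fun v _ => hb v).trans ?_)
    have e3 : ∑ v : V m, K (fl v) = ∑ v : V m, K v := Equiv.sum_comp (flE m) K
    rw [← Finset.sum_div, Finset.sum_add_distrib, e3]
    linarith
  have h5 : ev (lipG hg) γ = ev (lipG hg) (γ - gam m) + ev (lipG hg) (gam m) := by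
    rw [ev_sub]; ring
  have h6 := Finset.sum_add_sum_compl I fun i => |a i|
  have h7 := le_abs_self (ev (lipG hg) (γ - gam m))
  have h8 := le_abs_self (ev (lipG hg) (gam m))
  rw [hγ] at hfγ
  linarith

end Pool.Agent.Q228.UR
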