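import Pool.Agent.Q228.UR.Space
import Pool.Agent.H266R3.LDef

/-!
# Lipschitz functions on the tree, and the elements `γ_m`
-/

set_option autoImplicit false

noncomputable section

namespace Pool.Agent.Q228.UR

open Set Finset Filter Topology
open Pool.Agent.H266R3.LF (Lip0 dlt dlt_mem dlt_apply LFree FreeSp norm_dlt_sub_le inc)

/-- the base point -/
def o : T := mk (fun _ => false) 0

lemma mk_zero (w : ℕ → Bool) : mk w 0 = o := mk_eq fun _ => hh_nonneg _ _

/-- the evaluation functional at `x` -/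
def dl (x : T) : FreeSp T o := ⟨dlt T o x, dlt_mem x⟩

lemma norm_dl_sub (x y : T) : ‖dl x - dl y‖ ≤ dist x y := norm_dlt_sub_le x y

/-- evaluation of an element of the free space at a Lipschitz function -/
def ev (f : Lip0 T o) (γ : FreeSp T o) : ℝ := γ.1 f

lemma ev_add (f : Lip0 T o) (a b : FreeSp T o) : ev f (a + b) = ev f a + ev f b := rfl
lemma ev_sub (f : Lip0 T o) (a b : FreeSp T o) : ev f (a - b) = ev f a - ev f b := rfl
lemma ev_smul (f : Lip0 T o) (c : ℝ) (a : FreeSp T o) : ev f (c • a) = c * ev f a := rfl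
lemma ev_zero (f : Lip0 T o) : ev f 0 = 0 := rfl
lemma ev_dl (f : Lip0 T o) (x : T) : ev f (dl x) = f.fn x := rfl

lemma ev_sum {ι : Type} (f : Lip0 T o) (s : Finset ι) (a : ι → FreeSp T o) :
    ev f (∑ i ∈ s, a i) = ∑ i ∈ s, ev f (a i) := by
  classical
  induction s using Finset.induction_on with
  | empty => simp [ev_zero]
  | insert i s hi ih => rw [Finset.sum_insert hi, Finset.sum_insert hi, ev_add, ih]

lemma ev_le (f : Lip0 T o) (a : FreeSp T o) : |ev f a| ≤ ‖a‖ * ‖f‖ :=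
  (a.1 : StrongDual ℝ (Lip0 T o)).le_opNorm f

/-- `ev f` as a continuous linear functional -/
def evL (f : Lip0 T o) : FreeSp T o →L[ℝ] ℝ :=
  LinearMap.mkContinuous
    { toFun := fun a => ev f a
      map_add' := fun _ _ => rfl
      map_smul' := fun _ _ => rfl } ‖f‖ (fun a => by
        rw [mul_comm]; exact ev_le f a)

lemma evL_apply (f : Lip0 T o) (a : FreeSp T o) : evL f a = ev f a := rfl

/-- a Lipschitz function from its values on the branches -/
def lipOf (F : (ℕ → Bool) → ℝ → ℝ) (h0 : F (fun _ => false) 0 = 0)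
    (hL : ∀ w t w' t', |F w t - F w' t'| ≤ dist (mk w t) (mk w' t')) : Lip0 T o :=
  Lip0.mk (SeparationQuotient.lift (fun p : P => F p.w p.t) (fun p q hpq => by
      have h1 := hL p.w p.t q.w q.t
      have h2 : mk p.w p.t = mk q.w q.t := SeparationQuotient.mk_eq_mk.2 hpq
      rw [h2, dist_self] at h1
      exact sub_eq_zero.1 (abs_nonpos_iff.1 h1))) h0 1 zero_le_one (fun x y => by
    obtain ⟨w, t, rfl⟩ := exists_mk x
    obtain ⟨w', t', rfl⟩ := exists_mk y
    rw [one_mul]
    exact hL w t w' t')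

lemma lipOf_fn (F : (ℕ → Bool) → ℝ → ℝ) (h0 : F (fun _ => false) 0 = 0)
    (hL : ∀ w t w' t', |F w t - F w' t'| ≤ dist (mk w t) (mk w' t')) (w : ℕ → Bool) (t : ℝ) :
    (lipOf F h0 hL).fn (mk w t) = F w t := rfl

lemma lipOf_norm (F : (ℕ → Bool) → ℝ → ℝ) (h0 : F (fun _ => false) 0 = 0)
    (hL : ∀ w t w' t', |F w t - F w' t'| ≤ dist (mk w t) (mk w' t')) :
    ‖lipOf F h0 hL‖ ≤ 1 := by
  refine (lipOf F h0 hL).norm_le' zero_le_one fun x y => ?_
  obtain ⟨w, t, rfl⟩ := exists_mk x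
  obtain ⟨w', t', rfl⟩ := exists_mk y
  rw [one_mul]
  exact hL w t w' t'

/-! ### the functions `Lam J` -/

/-- sign of a bit -/
def sgn (b : Bool) : ℝ := if b then 1 else -1

lemma sgn_not (b : Bool) : sgn (!b) = - sgn b := by cases b <;> simp [sgn]
lemma sgn_mul (b : Bool) : sgn b * sgn b = 1 := by cases b <;> simp [sgn]
lemma abs_sgn (b : Bool) : |sgn b| = 1 := by cases b <;> simp [sgn]

/-- the part of `[0, t]` in level `m` -/
def cl (m : ℕ) (t : ℝ) : ℝ := min (max (t - H m) 0) (ell m)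

lemma cl_nonneg (m : ℕ) (t : ℝ) : 0 ≤ cl m t := le_min (le_max_right _ _) (ell_pos m).le
lemma cl_le (m : ℕ) (t : ℝ) : cl m t ≤ ell m := min_le_right _ _
lemma cl_mono (m : ℕ) {c t : ℝ} (h : c ≤ t) : cl m c ≤ cl m t :=
  min_le_min (max_le_max (by linarith) le_rfl) le_rfl
lemma cl_zero {m : ℕ} {t : ℝ} (h : t ≤ H m) : cl m t = 0 := by
  unfold cl
  rw [max_eq_right (by linarith), min_eq_left (ell_pos m).le]
lemma cl_full {m : ℕ} {t : ℝ} (h : H (m + 1) ≤ t) : cl m t = ell m := by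
  unfold cl
  rw [H_succ] at h
  have := ell_pos m
  rw [max_eq_left (by linarith), min_eq_right (by linarith)]

lemma sum_cl (J M : ℕ) (t : ℝ) :
    ∑ k ∈ range M, cl (k + J) t = min (max (t - H J) 0) (H (M + J) - H J) := by
  induction M with
  | zero => simp
  | succ M ih =>
    rw [Finset.sum_range_succ, ih]
    have h1 : H (M + 1 + J) = H (M + J) + ell (M + J) := by
      rw [show M + 1 + J = M + J + 1 by ring, H_succ]
    have h2 := ell_pos (M + J)
    have h3 : H J ≤ H (M + J) := H_mono (by omega)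
    rw [h1]
    unfold cl
    rcases le_total t (H J) with c | c
    · rw [max_eq_right (by linarith), max_eq_right (by linarith), min_eq_left (by linarith),
        min_eq_left (by linarith), min_eq_left (by linarith)]
      ring
    · rcases le_total t (H (M + J)) with c' | c'
      · rw [max_eq_left (by linarith), max_eq_right (by linarith), min_eq_left (by linarith),
          min_eq_left (by linarith), min_eq_left (by linarith)]
        ring
      · rw [max_eq_left (by linarith), max_eq_left (by linarith), min_eq_right (by linarith)]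
        rcases le_total (t - H (M + J)) (ell (M + J)) with c'' | c''
        · rw [min_eq_left c'', min_eq_left (by linarith)]; ring
        · rw [min_eq_right c'', min_eq_right (by linarith)]; ring

lemma sum_cl_sub (J M : ℕ) {c t : ℝ} (h : c ≤ t) :
    ∑ k ∈ range M, (cl (k + J) t - cl (k + J) c) ≤ t - c := by
  rw [Finset.sum_sub_distrib, sum_cl, sum_cl]
  have h3 : H J ≤ H (M + J) := H_mono (by omega)
  rcases le_total t (H J) with c1 | c1
  · rw [max_eq_right (by linarith), max_eq_right (by linarith)]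
    linarith
  · rcases le_total c (H J) with c2 | c2
    · rw [max_eq_left (by linarith), max_eq_right (by linarith),
        min_eq_left (show (0 : ℝ) ≤ H (M + J) - H J by linarith)]
      have := min_le_left (t - H J) (H (M + J) - H J)
      linarith
    · rw [max_eq_left (by linarith), max_eq_left (by linarith)]
      rcases le_total (c - H J) (H (M + J) - H J) with c3 | c3
      · rw [min_eq_left c3]
        have := min_le_left (t - H J) (H (M + J) - H J)
        linarith
      · rw [min_eq_right c3, min_eq_right (by linarith)]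
        linarith

/-- signed length above level `J` -/
def FJ (J : ℕ) (w : ℕ → Bool) (t : ℝ) : ℝ := ∑' k, sgn (w ((k + J) ^ 2)) * cl (k + J) t

lemma FJ_summable (J : ℕ) (w : ℕ → Bool) (t : ℝ) :
    Summable fun k => sgn (w ((k + J) ^ 2)) * cl (k + J) t := by
  refine Summable.of_norm_bounded (g := fun k => ell (k + J))
    ((summable_nat_add_iff J).2 ell_summable) fun k => ?_
  rw [norm_mul, Real.norm_eq_abs, abs_sgn, one_mul, Real.norm_eq_abs, abs_of_nonneg (cl_nonneg _ _)]
  exact cl_le _ _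

lemma FJ_small (J : ℕ) (w : ℕ → Bool) (t : ℝ) : |FJ J w t| ≤ ∑' k, ell (k + J) := by
  show ‖∑' k, sgn (w ((k + J) ^ 2)) * cl (k + J) t‖ ≤ _
  refine tsum_of_norm_bounded ((summable_nat_add_iff J).2 ell_summable).hasSum fun k => ?_
  rw [norm_mul, Real.norm_eq_abs, abs_sgn, one_mul, Real.norm_eq_abs, abs_of_nonneg (cl_nonneg _ _)]
  exact cl_le _ _

lemma FJ_vert (J : ℕ) (w : ℕ → Bool) {c t : ℝ} (h : c ≤ t) : |FJ J w t - FJ J w c| ≤ t - c := by
  have h1 := (FJ_summable J w t).hasSum.tendsto_sum_nat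
  have h2 := (FJ_summable J w c).hasSum.tendsto_sum_nat
  refine le_of_tendsto (h1.sub h2).abs (Eventually.of_forall fun M => ?_)
  rw [← Finset.sum_sub_distrib]
  refine (Finset.abs_sum_le_sum_abs _ _).trans (le_trans (Finset.sum_le_sum fun k _ => ?_)
    (sum_cl_sub J M h))
  rw [← mul_sub, abs_mul, abs_sgn, one_mul, abs_of_nonneg (sub_nonneg.2 (cl_mono _ h))]

/-- coordinates which are already fixed at height `c` -/
lemma coord_eq {w w' : ℕ → Bool} {c : ℝ} (h : w ≠ w' → c ≤ hh w w') {m : ℕ} (hm : H m < c) :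
    ∀ j, j < (m + 1) ^ 2 → w j = w' j := by
  intro j hj
  by_cases hw : w = w'
  · rw [hw]
  · have h1 := h hw
    unfold hh at h1
    have h2 : m < Nat.sqrt (PiNat.firstDiff w w') := H_strict.lt_iff_lt.1 (lt_of_lt_of_le hm h1)
    have h3 : (m + 1) ^ 2 ≤ PiNat.firstDiff w w' := by
      rw [← Nat.le_sqrt']
      exact h2
    exact PiNat.apply_eq_of_lt_firstDiff (lt_of_lt_of_le hj h3)

lemma FJ_meet (J : ℕ) {w w' : ℕ → Bool} {c : ℝ} (h : w ≠ w' → c ≤ hh w w') :
    FJ J w c = FJ J w' c := by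
  unfold FJ
  refine tsum_congr fun k => ?_
  rcases le_or_gt c (H (k + J)) with h1 | h1
  · rw [cl_zero h1, mul_zero, mul_zero]
  · rw [coord_eq h h1 ((k + J) ^ 2) (Nat.pow_lt_pow_left (by omega) (by norm_num))]

lemma dist_meet (w w' : ℕ → Bool) (t t' : ℝ) : ∃ c, c = gg ⟨w, t⟩ ⟨w', t'⟩ ∧ c ≤ t ∧ c ≤ t' ∧
    (w ≠ w' → c ≤ hh w w') ∧ dist (mk w t) (mk w' t') = (t - c) + (t' - c) := by
  refine ⟨_, rfl, gg_left _ _, gg_right _ _, fun h => gg_hh (p := ⟨w, t⟩) (q := ⟨w', t'⟩) h, ?_⟩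
  rw [dist_mk']; ring

lemma FJ_lip (J : ℕ) (w : ℕ → Bool) (t : ℝ) (w' : ℕ → Bool) (t' : ℝ) :
    |FJ J w t - FJ J w' t'| ≤ dist (mk w t) (mk w' t') := by
  obtain ⟨c, -, h1, h2, h3, h4⟩ := dist_meet w w' t t'
  rw [h4]
  have e := FJ_meet J h3
  have a1 := FJ_vert J w h1
  have a2 := FJ_vert J w' h2
  have : FJ J w t - FJ J w' t' = (FJ J w t - FJ J w c) - (FJ J w' t' - FJ J w' c) := by
    rw [e]; ring
  rw [this]
  exact (abs_sub _ _).trans (add_le_add a1 a2)

lemma FJ_zero (J : ℕ) (w : ℕ → Bool) : FJ J w 0 = 0 := by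
  unfold FJ
  have : ∀ k, sgn (w ((k + J) ^ 2)) * cl (k + J) 0 = 0 := fun k => by
    rw [cl_zero (H_nonneg _), mul_zero]
  simp [this]

/-- the Lipschitz function `Lam J` -/
def Lam (J : ℕ) : Lip0 T o := lipOf (FJ J) (FJ_zero J _) (FJ_lip J)

lemma Lam_fn (J : ℕ) (w : ℕ → Bool) (t : ℝ) : (Lam J).fn (mk w t) = FJ J w t := rfl

lemma Lam_norm (J : ℕ) : ‖Lam J‖ ≤ 1 := lipOf_norm _ _ _

/-- `Lam J` tends to zero weakly-star -/
theorem Lam_tendsto (γ : FreeSp T o) : Tendsto (fun J => ev (Lam J) γ) atTop (𝓝 0) := by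
  rw [Metric.tendsto_atTop]
  intro ε hε
  have hspan : ∀ ν ∈ Submodule.span ℝ (Set.range (dlt T o)),
      Tendsto (fun J => ν (Lam J)) atTop (𝓝 0) := by
    intro ν hν
    induction hν using Submodule.span_induction with
    | mem x hx =>
      obtain ⟨p, rfl⟩ := hx
      obtain ⟨w, t, rfl⟩ := exists_mk p
      refine squeeze_zero_norm (fun J => ?_) (tendsto_sum_nat_add ell)
      exact FJ_small J w t
    | zero => simp
    | add x y _ _ ihx ihy =>
      have := ihx.add ihy
      simpa using this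
    | smul c x _ ih =>
      have := ih.const_mul c
      simpa using this
  have hγ : γ.1 ∈ closure ((Submodule.span ℝ (Set.range (dlt T o)) : Submodule ℝ _) : Set _) := γ.2
  rw [Metric.mem_closure_iff] at hγ
  obtain ⟨ν, hν, hd⟩ := hγ (ε / 2) (by positivity)
  obtain ⟨N, hN⟩ := (Metric.tendsto_atTop.1 (hspan ν hν)) (ε / 2) (by positivity)
  refine ⟨N, fun J hJ => ?_⟩
  have h1 := hN J hJ
  rw [Real.dist_eq, sub_zero] at h1 ⊢
  have h2 : |(γ.1 - ν) (Lam J)| ≤ ‖γ.1 - ν‖ * ‖Lam J‖ := (γ.1 - ν).le_opNorm _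
  rw [dist_eq_norm] at hd
  have h3 : ‖γ.1 - ν‖ * ‖Lam J‖ ≤ ‖γ.1 - ν‖ :=
    mul_le_of_le_one_right (norm_nonneg _) (Lam_norm J)
  have h4 : ev (Lam J) γ = (γ.1 - ν) (Lam J) + ν (Lam J) := by
    show γ.1 (Lam J) = _
    rw [sub_apply]; ring
  rw [h4]
  calc _ ≤ |(γ.1 - ν) (Lam J)| + |ν (Lam J)| := abs_add_le _ _
    _ < ε := by linarith

end Pool.Agent.Q228.UR
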