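import Pool.Agent.Q228.UR.Fun

/-!
# The elements `γ_m`: bounded, not relatively weakly compact
-/

set_option autoImplicit false

noncomputable section

namespace Pool.Agent.Q228.UR

open Set Finset Filter Topology
open Pool.Agent.H266R3.LF (Lip0 dlt dlt_mem dlt_apply LFree FreeSp norm_dlt_sub_le inc)

/-- words of length `(m + 1)^2`: the edges of level `m` -/
abbrev V (m : ℕ) : Type := Fin ((m + 1) ^ 2) → Bool

/-- extension by `false` -/
def ext {n : ℕ} (v : Fin n → Bool) (j : ℕ) : Bool := if h : j < n then v ⟨j, h⟩ else false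

lemma ext_lt {n : ℕ} (v : Fin n → Bool) {j : ℕ} (h : j < n) : ext v j = v ⟨j, h⟩ := dif_pos h

lemma ext_inj {n : ℕ} {v v' : Fin n → Bool} (h : ∀ j < n, ext v j = ext v' j) : v = v' := by
  funext j
  have := h j j.2
  rwa [ext_lt v j.2, ext_lt v' j.2] at this

/-- the first coordinate of block `m` -/
def idx (m : ℕ) : Fin ((m + 1) ^ 2) := ⟨m ^ 2, Nat.pow_lt_pow_left (by omega) (by norm_num)⟩

/-- flip the first coordinate of block `m` -/
def fl {m : ℕ} (v : V m) : V m := Function.update v (idx m) (!v (idx m))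

lemma fl_fl {m : ℕ} (v : V m) : fl (fl v) = v := by
  funext j
  unfold fl
  by_cases h : j = idx m
  · subst h; simp
  · simp [Function.update_of_ne h]

/-- sign of an edge -/
def sg {m : ℕ} (v : V m) : ℝ := sgn (v (idx m))

lemma sg_fl {m : ℕ} (v : V m) : sg (fl v) = - sg v := by
  unfold sg fl
  rw [Function.update_self, sgn_not]

lemma sg_mul {m : ℕ} (v : V m) : sg v * sg v = 1 := sgn_mul _

lemma abs_sg {m : ℕ} (v : V m) : |sg v| = 1 := abs_sgn _

lemma ext_fl_ne {m : ℕ} (v : V m) {j : ℕ} (h : j ≠ m ^ 2) : ext (fl v) j = ext v j := by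
  unfold ext
  split_ifs with hj
  · unfold fl
    rw [Function.update_of_ne]
    intro e
    exact h (congrArg Fin.val e)
  · rfl

lemma ext_fl_eq {m : ℕ} (v : V m) : ext (fl v) (m ^ 2) = !ext v (m ^ 2) := by
  rw [ext_lt (fl v) (j := m ^ 2) (idx m).2, ext_lt v (j := m ^ 2) (idx m).2]
  show fl v (idx m) = !v (idx m)
  unfold fl
  rw [Function.update_self]

lemma ext_ne {m : ℕ} (v : V m) : ext v ≠ ext (fl v) := by
  intro e
  have := congrFun e (m ^ 2)
  rw [ext_fl_eq] at this
  cases h : ext v (m ^ 2) <;> rw [h] at this <;> simp at this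

lemma hh_fl {m : ℕ} (v : V m) : hh (ext v) (ext (fl v)) = H m := by
  have h1 := PiNat.apply_firstDiff_ne (ext_ne v)
  have h2 : PiNat.firstDiff (ext v) (ext (fl v)) = m ^ 2 := by
    by_contra h
    exact h1 (ext_fl_ne v h).symm
  unfold hh
  rw [h2, Nat.sqrt_eq']

/-- the upper end of an edge -/
def top {m : ℕ} (v : V m) : T := mk (ext v) (H (m + 1))

lemma dist_fl {m : ℕ} (v : V m) : dist (top v) (top (fl v)) = 2 * ell m := by
  unfold top
  rw [dist_mk']
  have e : gg ⟨ext v, H (m + 1)⟩ ⟨ext (fl v), H (m + 1)⟩ = H m := by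
    rw [gg_diff (p := ⟨ext v, H (m + 1)⟩) (q := ⟨ext (fl v), H (m + 1)⟩) (ext_ne v)]
    show min (min (H (m + 1)) (H (m + 1))) (hh (ext v) (ext (fl v))) = H m
    rw [hh_fl, min_self, min_eq_right (H_mono (by omega))]
  rw [e, H_succ]; ring

/-- the element `γ_m` -/
def gam (m : ℕ) : FreeSp T o := ∑ v : V m, sg v • dl (top v)

/-- flipping as a permutation -/
def flE (m : ℕ) : Equiv.Perm (V m) := ⟨fl, fl, fl_fl, fl_fl⟩

lemma gam_pair (m : ℕ) : gam m = ∑ v : V m, (sg v / 2) • (dl (top v) - dl (top (fl v))) := by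
  have h1 : ∑ v : V m, sg v • dl (top (fl v)) = - gam m := by
    have h2 := Equiv.sum_comp (flE m) (fun v : V m => sg v • dl (top (fl v)))
    rw [← h2]
    unfold gam
    rw [← Finset.sum_neg_distrib]
    refine Finset.sum_congr rfl fun v _ => ?_
    show sg (fl v) • dl (top (fl (fl v))) = _
    rw [fl_fl, sg_fl, neg_smul]
  have h3 : ∑ v : V m, (sg v / 2) • (dl (top v) - dl (top (fl v))) =
      (1 / 2 : ℝ) • (gam m - ∑ v : V m, sg v • dl (top (fl v))) := by
    unfold gam
    rw [← Finset.sum_sub_distrib, Finset.smul_sum]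
    refine Finset.sum_congr rfl fun v _ => ?_
    rw [← smul_sub, smul_smul]
    congr 1; ring
  rw [h3, h1, sub_neg_eq_add, ← two_smul ℝ (gam m), smul_smul]
  norm_num

lemma card_V (m : ℕ) : (Fintype.card (V m) : ℝ) * ell m = 1 := by
  rw [Fintype.card_fun, Fintype.card_bool, Fintype.card_fin]
  unfold ell
  push_cast
  rw [← mul_pow]
  norm_num

lemma sum_ell (m : ℕ) : ∑ _v : V m, ell m = 1 := by
  rw [Finset.sum_const, nsmul_eq_mul, Finset.card_univ]
  exact card_V m

lemma norm_gam (m : ℕ) : ‖gam m‖ ≤ 1 := by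
  rw [gam_pair, ← sum_ell m]
  refine (norm_sum_le _ _).trans (Finset.sum_le_sum fun v _ => ?_)
  rw [norm_smul, Real.norm_eq_abs, abs_div, abs_sg]
  have h := norm_dl_sub (top v) (top (fl v))
  rw [dist_fl] at h
  rw [abs_of_pos (by norm_num : (0 : ℝ) < 2)]
  linarith

lemma Lam_diff {J m : ℕ} (h : J ≤ m) (v : V m) :
    FJ J (ext v) (H (m + 1)) - FJ J (ext (fl v)) (H (m + 1)) = 2 * sg v * ell m := by
  have h1 := (FJ_summable J (ext v) (H (m + 1))).hasSum.sub
    (FJ_summable J (ext (fl v)) (H (m + 1))).hasSum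
  have h2 : HasSum (fun k => sgn (ext v ((k + J) ^ 2)) * cl (k + J) (H (m + 1)) -
      sgn (ext (fl v) ((k + J) ^ 2)) * cl (k + J) (H (m + 1))) (2 * sg v * ell m) := by
    have e : sgn (ext v ((m - J + J) ^ 2)) * cl (m - J + J) (H (m + 1)) -
      sgn (ext (fl v) ((m - J + J) ^ 2)) * cl (m - J + J) (H (m + 1)) = 2 * sg v * ell m := by
      rw [Nat.sub_add_cancel h, cl_full le_rfl, ext_fl_eq, sgn_not]
      have : sgn (ext v (m ^ 2)) = sg v := by
        rw [ext_lt v (j := m ^ 2) (idx m).2]; rfl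
      rw [this]; ring
    rw [← e]
    refine hasSum_single (m - J) fun k hk => ?_
    rcases lt_trichotomy (k + J) m with h3 | h3 | h3
    · rw [ext_fl_ne v (ne_of_lt (Nat.pow_lt_pow_left h3 (by norm_num)))]
      ring
    · exact absurd (by omega) hk
    · rw [cl_zero (H_mono (by omega : m + 1 ≤ k + J))]
      ring
  exact h1.unique h2

lemma ev_gam (f : Lip0 T o) (m : ℕ) :
    ev f (gam m) = ∑ v : V m, (sg v / 2) * (f.fn (top v) - f.fn (top (fl v))) := by
  rw [gam_pair, ev_sum]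
  refine Finset.sum_congr rfl fun v _ => ?_
  rw [ev_smul, ev_sub, ev_dl, ev_dl]

lemma Lam_gam {J m : ℕ} (h : J ≤ m) : ev (Lam J) (gam m) = 1 := by
  rw [ev_gam, ← sum_ell m]
  refine Finset.sum_congr rfl fun v _ => ?_
  have : (Lam J).fn (top v) - (Lam J).fn (top (fl v)) = 2 * sg v * ell m := Lam_diff h v
  rw [this]
  calc sg v / 2 * (2 * sg v * ell m) = (sg v * sg v) * ell m := by ring
    _ = ell m := by rw [sg_mul, one_mul]

theorem not_compact (W : Set (FreeSp T o)) (hW : ∀ m, gam m ∈ W) :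
    ¬ IsCompact (closure (toWeakSpace ℝ (FreeSp T o) '' W)) := by
  intro hC
  obtain ⟨x, -, hx⟩ := hC.exists_mapClusterPt (f := atTop)
    (u := fun m => toWeakSpace ℝ (FreeSp T o) (gam m)) (by
      rw [le_principal_iff, Filter.mem_map]
      exact Eventually.of_forall fun m => subset_closure ⟨_, hW m, rfl⟩)
  have hval : ∀ J, ev (Lam J) ((toWeakSpace ℝ (FreeSp T o)).symm x) = 1 := by
    intro J
    have hcont : Continuous fun w : WeakSpace ℝ (FreeSp T o) =>
        evL (Lam J) ((toWeakSpace ℝ (FreeSp T o)).symm w) :=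
      WeakBilin.eval_continuous (topDualPairing ℝ (FreeSp T o)).flip (evL (Lam J))
    have h1 := hx.tendsto_comp (hcont.tendsto x)
    have h2 : Tendsto ((fun w : WeakSpace ℝ (FreeSp T o) =>
        evL (Lam J) ((toWeakSpace ℝ (FreeSp T o)).symm w)) ∘
        fun m => toWeakSpace ℝ (FreeSp T o) (gam m)) atTop (𝓝 1) := by
      refine tendsto_const_nhds.congr' ?_
      filter_upwards [eventually_ge_atTop J] with m hm
      show (1 : ℝ) = ev (Lam J) (gam m)
      rw [Lam_gam hm]
    have h3 : (𝓝 (evL (Lam J) ((toWeakSpace ℝ (FreeSp T o)).symm x)) ⊓ 𝓝 (1 : ℝ)).NeBot :=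
      NeBot.mono h1 (inf_le_inf_left _ h2)
    exact eq_of_nhds_neBot h3
  have h4 := Lam_tendsto ((toWeakSpace ℝ (FreeSp T o)).symm x)
  simp only [hval] at h4
  exact one_ne_zero (tendsto_nhds_unique tendsto_const_nhds h4)

end Pool.Agent.Q228.UR
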