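import Pool.Agent.Q228.UR.Tree

/-!
# The tree
-/

set_option autoImplicit false

noncomputable section

namespace Pool.Agent.Q228.UR

open Set Finset

/-- length of the edges of level `m` -/
def ell (m : ℕ) : ℝ := (1 / 2 : ℝ) ^ ((m + 1) ^ 2)

lemma ell_pos (m : ℕ) : 0 < ell m := by unfold ell; positivity

lemma ell_le (m : ℕ) : ell m ≤ (1 / 2 : ℝ) ^ m := by
  unfold ell
  exact pow_le_pow_of_le_one (by norm_num) (by norm_num) (by nlinarith)

lemma ell_summable : Summable ell :=
  Summable.of_nonneg_of_le (fun m => (ell_pos m).le) ell_le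
    (summable_geometric_of_lt_one (by norm_num) (by norm_num))

/-- height at which level `n` starts -/
def H (n : ℕ) : ℝ := ∑ i ∈ range n, ell i

/-- total height -/
def Hi : ℝ := ∑' i, ell i

lemma H_succ (n : ℕ) : H (n + 1) = H n + ell n := Finset.sum_range_succ _ _

lemma H_mono : Monotone H := monotone_nat_of_le_succ fun n => by
  rw [H_succ]; linarith [ell_pos n]

lemma H_zero : H 0 = 0 := by simp [H]

lemma H_nonneg (n : ℕ) : 0 ≤ H n := H_zero ▸ H_mono (Nat.zero_le n)

lemma H_strict : StrictMono H := strictMono_nat_of_lt_succ fun n => by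
  rw [H_succ]; linarith [ell_pos n]

lemma H_le (n : ℕ) : H n ≤ Hi := ell_summable.sum_le_tsum _ fun i _ => (ell_pos i).le

lemma H_tendsto : Filter.Tendsto H Filter.atTop (nhds Hi) :=
  ell_summable.hasSum.tendsto_sum_nat

/-- points before identification: a branch and a height -/
structure P : Type where
  /-- the branch -/
  w : ℕ → Bool
  /-- the height -/
  t : ℝ

/-- the height at which two different branches separate -/
def hh (w w' : ℕ → Bool) : ℝ := H (Nat.sqrt (PiNat.firstDiff w w'))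

lemma hh_comm (w w' : ℕ → Bool) : hh w w' = hh w' w := by
  unfold hh; rw [PiNat.firstDiff_comm]

lemma hh_nonneg (w w' : ℕ → Bool) : 0 ≤ hh w w' := H_nonneg _

open Classical in
/-- height of the meet -/
def gg (p q : P) : ℝ := if p.w = q.w then min p.t q.t else min (min p.t q.t) (hh p.w q.w)

lemma gg_same {p q : P} (h : p.w = q.w) : gg p q = min p.t q.t := if_pos h

lemma gg_diff {p q : P} (h : p.w ≠ q.w) : gg p q = min (min p.t q.t) (hh p.w q.w) := if_neg h

lemma gg_comm (p q : P) : gg p q = gg q p := by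
  by_cases h : p.w = q.w
  · rw [gg_same h, gg_same h.symm, min_comm]
  · rw [gg_diff h, gg_diff (Ne.symm h), min_comm p.t, hh_comm]

lemma gg_self (p : P) : gg p p = p.t := by rw [gg_same rfl, min_self]

lemma gg_le_min (p q : P) : gg p q ≤ min p.t q.t := by
  by_cases h : p.w = q.w
  · rw [gg_same h]
  · rw [gg_diff h]; exact min_le_left _ _

lemma gg_left (p q : P) : gg p q ≤ p.t := (gg_le_min p q).trans (min_le_left _ _)

lemma gg_right (p q : P) : gg p q ≤ q.t := (gg_le_min p q).trans (min_le_right _ _)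

lemma gg_hh {p q : P} (h : p.w ≠ q.w) : gg p q ≤ hh p.w q.w := by
  rw [gg_diff h]; exact min_le_right _ _

lemma hh_ultra {x y z : ℕ → Bool} (h : x ≠ z) : min (hh x y) (hh y z) ≤ hh x z := by
  have h1 := PiNat.min_firstDiff_le x y z h
  have hm : Monotone fun n => H (Nat.sqrt n) := fun a b hab => H_mono (Nat.sqrt_le_sqrt hab)
  have h2 := hm h1
  have h3 := hm.map_min (a := PiNat.firstDiff x y) (b := PiNat.firstDiff y z)
  unfold hh
  rw [← h3]
  exact h2

lemma gg_ultra (p q r : P) : min (gg p q) (gg q r) ≤ gg p r := by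
  have a1 := gg_left p q
  have a2 := gg_right q r
  by_cases h : p.w = r.w
  · rw [gg_same h]
    exact min_le_min a1 a2
  · rw [gg_diff h]
    refine le_min (min_le_min a1 a2) ?_
    by_cases h1 : p.w = q.w
    · have h2 : q.w ≠ r.w := h1 ▸ h
      rw [h1]
      exact (min_le_right _ _).trans (gg_hh h2)
    · by_cases h2 : q.w = r.w
      · rw [← h2]
        exact (min_le_left _ _).trans (gg_hh h1)
      · exact (min_le_min (gg_hh h1) (gg_hh h2)).trans (hh_ultra h)

instance : PseudoMetricSpace P where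
  dist p q := p.t + q.t - 2 * gg p q
  dist_self p := by rw [gg_self]; ring
  dist_comm p q := by rw [gg_comm]; ring
  dist_triangle p q r := by
    have h := gg_ultra p q r
    have h1 := gg_right p q
    have h2 := gg_left q r
    rcases min_le_iff.1 h with h | h <;> linarith

lemma dist_P (p q : P) : dist p q = p.t + q.t - 2 * gg p q := rfl

/-- the tree -/
abbrev T : Type := SeparationQuotient P

/-- the point of the branch `w` at height `t` -/
def mk (w : ℕ → Bool) (t : ℝ) : T := SeparationQuotient.mk ⟨w, t⟩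

lemma exists_mk (x : T) : ∃ w t, x = mk w t := by
  obtain ⟨p, rfl⟩ := SeparationQuotient.surjective_mk x
  exact ⟨p.w, p.t, rfl⟩

lemma dist_mk' (w w' : ℕ → Bool) (t t' : ℝ) :
    dist (mk w t) (mk w' t') = t + t' - 2 * gg ⟨w, t⟩ ⟨w', t'⟩ :=
  SeparationQuotient.dist_mk _ _

lemma fpc : FPC T := by
  intro a b c d
  obtain ⟨w1, t1, rfl⟩ := exists_mk a
  obtain ⟨w2, t2, rfl⟩ := exists_mk b
  obtain ⟨w3, t3, rfl⟩ := exists_mk c
  obtain ⟨w4, t4, rfl⟩ := exists_mk d
  rw [dist_mk', dist_mk', dist_mk', dist_mk', dist_mk', dist_mk']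
  set p : P := ⟨w1, t1⟩
  set q : P := ⟨w2, t2⟩
  set r : P := ⟨w3, t3⟩
  set s : P := ⟨w4, t4⟩
  have u1 := gg_ultra p r q
  have u2 := gg_ultra p s q
  have u3 := gg_ultra r p s
  have u4 := gg_ultra r q s
  rw [gg_comm r q] at u1 u4
  rw [gg_comm s q] at u2
  rw [gg_comm r p] at u3
  rw [le_max_iff]
  by_contra hcon
  push Not at hcon
  obtain ⟨c1, c2⟩ := hcon
  rcases min_le_iff.1 u1 with u1 | u1 <;> rcases min_le_iff.1 u2 with u2 | u2 <;>
    rcases min_le_iff.1 u3 with u3 | u3 <;> rcases min_le_iff.1 u4 with u4 | u4 <;> linarith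

lemma gg_mid {p q : P} {u v : ℝ} (hu : gg p q ≤ u) (hu' : u ≤ p.t) (hv : gg p q ≤ v)
    (hv' : v ≤ q.t) : gg ⟨p.w, u⟩ ⟨q.w, v⟩ = gg p q := by
  by_cases h : p.w = q.w
  · have e : gg ⟨p.w, u⟩ ⟨q.w, v⟩ = min u v := gg_same h
    rw [e]
    rw [gg_same h] at hu hv ⊢
    apply le_antisymm (min_le_min hu' hv') (le_min hu hv)
  · have e : gg ⟨p.w, u⟩ ⟨q.w, v⟩ = min (min u v) (hh p.w q.w) := gg_diff h
    rw [e]
    have h2 := gg_hh h
    apply le_antisymm _ (le_min (le_min hu hv) h2)
    rw [gg_diff h]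
    exact min_le_min (min_le_min hu' hv') le_rfl

lemma gg_ray (w : ℕ → Bool) (a b : ℝ) : gg ⟨w, a⟩ ⟨w, b⟩ = min a b := gg_same rfl

lemma dist_ray (w : ℕ → Bool) (a b : ℝ) : dist (mk w a) (mk w b) = |a - b| := by
  rw [dist_mk', gg_ray]
  rcases le_total a b with h | h
  · rw [min_eq_left h, abs_of_nonpos (by linarith)]; ring
  · rw [min_eq_right h, abs_of_nonneg (by linarith)]; ring

lemma mk_eq {w w' : ℕ → Bool} {c : ℝ} (h : w ≠ w' → c ≤ hh w w') : mk w c = mk w' c := by
  rw [← dist_eq_zero, dist_mk']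
  by_cases hw : w = w'
  · subst hw
    rw [gg_ray, min_self]; ring
  · have e : gg ⟨w, c⟩ ⟨w', c⟩ = min (min c c) (hh w w') := gg_diff hw
    rw [e, min_self, min_eq_left (h hw)]; ring

theorem isRTree_T : IsRTree T := by
  refine isRTree_of fpc fun x y hxy => ?_
  obtain ⟨w1, t1, rfl⟩ := exists_mk x
  obtain ⟨w2, t2, rfl⟩ := exists_mk y
  set p : P := ⟨w1, t1⟩ with hp
  set q : P := ⟨w2, t2⟩ with hq
  set c := gg p q with hc
  have hc1 : c ≤ t1 := gg_left p q
  have hc2 : c ≤ t2 := gg_right p q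
  have hd : dist (mk w1 t1) (mk w2 t2) = (t1 - c) + (t2 - c) := by
    rw [dist_mk']; ring
  rw [hd]
  refine ⟨fun r => if r ≤ t1 - c then mk w1 (t1 - r) else mk w2 (c + (r - (t1 - c))), ?_, ?_, ?_⟩
  · simp only
    rw [if_pos (by linarith), sub_zero]
  · simp only
    split_ifs with h
    · have h2 : t2 = c := by linarith
      have h3 : t1 - (t1 - c + (t2 - c)) = c := by rw [h2]; ring
      rw [h3]
      conv_rhs => rw [h2]
      refine mk_eq fun hw => ?_
      exact gg_hh (p := p) (q := q) hw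
    · congr 1; ring
  · intro a ha b hb
    have key : ∀ a ∈ Icc (0 : ℝ) (t1 - c + (t2 - c)), ∀ b ∈ Icc (0 : ℝ) (t1 - c + (t2 - c)),
        a ≤ t1 - c → ¬ b ≤ t1 - c →
        dist (mk w1 (t1 - a)) (mk w2 (c + (b - (t1 - c)))) = |a - b| := by
      intro a ha b hb h1 h2
      rw [dist_mk']
      have := gg_mid (p := p) (q := q) (u := t1 - a) (v := c + (b - (t1 - c)))
        (by rw [← hc]; linarith) (by show t1 - a ≤ t1; linarith [ha.1])
        (by rw [← hc]; linarith) (by show c + (b - (t1 - c)) ≤ t2; linarith [hb.2])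
      have e : gg ⟨w1, t1 - a⟩ ⟨w2, c + (b - (t1 - c))⟩ = c := this
      rw [e, abs_of_nonpos (by linarith)]
      ring
    simp only
    by_cases h1 : a ≤ t1 - c <;> by_cases h2 : b ≤ t1 - c
    · rw [if_pos h1, if_pos h2, dist_ray, abs_sub_comm a b]; congr 1; ring
    · rw [if_pos h1, if_neg h2]; exact key a ha b hb h1 h2
    · rw [if_neg h1, if_pos h2, dist_comm, abs_sub_comm]; exact key b hb a ha h2 h1
    · rw [if_neg h1, if_neg h2, dist_ray]; congr 1; ring

end Pool.Agent.Q228.UR
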