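import Pool.Agent.Q228.UR.Gam

/-!
# Splitting a Lipschitz function along a closed set
-/

set_option autoImplicit false

noncomputable section

namespace Pool.Agent.Q228.UR

open Set Finset Filter Topology MeasureTheory
open Pool.Agent.H266R3.LF (Lip0 dlt dlt_mem dlt_apply LFree FreeSp norm_dlt_sub_le inc)

/-- admissible integrands -/
structure Good (φ : (ℕ → Bool) → ℝ → ℝ) : Prop where
  meas : ∀ w, Measurable (φ w)
  bd : ∀ w r, |φ w r| ≤ 1
  loc : ∀ w w' r, w ≠ w' → r < hh w w' → φ w r = φ w' r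

lemma Good.ii {φ : (ℕ → Bool) → ℝ → ℝ} (h : Good φ) (w : ℕ → Bool) (a b : ℝ) :
    IntervalIntegrable (φ w) volume a b := by
  refine (intervalIntegrable_const (c := (1 : ℝ))).mono_fun (h.meas w).aestronglyMeasurable ?_
  refine Eventually.of_forall fun r => ?_
  rw [norm_one]
  exact h.bd w r

/-- the primitive -/
def prim (φ : (ℕ → Bool) → ℝ → ℝ) (w : ℕ → Bool) (t : ℝ) : ℝ := ∫ r in (0 : ℝ)..t, φ w r

lemma prim_sub {φ : (ℕ → Bool) → ℝ → ℝ} (h : Good φ) (w : ℕ → Bool) (c t : ℝ) :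
    prim φ w t - prim φ w c = ∫ r in c..t, φ w r := by
  unfold prim
  exact intervalIntegral.integral_interval_sub_left (h.ii w _ _) (h.ii w _ _)

lemma prim_meet {φ : (ℕ → Bool) → ℝ → ℝ} (h : Good φ) {w w' : ℕ → Bool} {c : ℝ}
    (hc : w ≠ w' → c ≤ hh w w') : prim φ w c = prim φ w' c := by
  by_cases hw : w = w'
  · rw [hw]
  · unfold prim
    refine intervalIntegral.integral_congr_ae ?_
    have h1 : ∀ᵐ r : ℝ ∂volume, r ≠ hh w w' :=
      Set.Countable.ae_notMem (Set.countable_singleton _) volume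
    filter_upwards [h1] with r hr hr2
    have h2 : r ≤ max 0 c := by
      rw [Set.uIoc, Set.mem_Ioc] at hr2
      exact hr2.2
    refine h.loc w w' r hw (lt_of_le_of_ne (h2.trans (max_le (hh_nonneg _ _) (hc hw))) hr)

lemma prim_vert {φ : (ℕ → Bool) → ℝ → ℝ} (h : Good φ) (w : ℕ → Bool) {c t : ℝ} (hct : c ≤ t) :
    |prim φ w t - prim φ w c| ≤ t - c := by
  rw [prim_sub h]
  have := intervalIntegral.norm_integral_le_of_norm_le_const (a := c) (b := t) (C := 1)
    (f := φ w) (fun r _ => h.bd w r)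
  rw [one_mul, abs_of_nonneg (by linarith)] at this
  exact this

lemma prim_diff {φ : (ℕ → Bool) → ℝ → ℝ} (h : Good φ) {w w' : ℕ → Bool} {c : ℝ} (t t' : ℝ)
    (hc : w ≠ w' → c ≤ hh w w') : prim φ w t - prim φ w' t' =
      (prim φ w t - prim φ w c) - (prim φ w' t' - prim φ w' c) := by
  rw [prim_meet h hc]; ring

lemma prim_lip {φ : (ℕ → Bool) → ℝ → ℝ} (h : Good φ) (w : ℕ → Bool) (t : ℝ) (w' : ℕ → Bool)
    (t' : ℝ) : |prim φ w t - prim φ w' t'| ≤ dist (mk w t) (mk w' t') := by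
  obtain ⟨c, -, h1, h2, h3, h4⟩ := dist_meet w w' t t'
  rw [h4, prim_diff h t t' h3]
  exact (abs_sub _ _).trans (add_le_add (prim_vert h w h1) (prim_vert h w' h2))

lemma prim_zero (φ : (ℕ → Bool) → ℝ → ℝ) (w : ℕ → Bool) : prim φ w 0 = 0 := by
  unfold prim
  exact intervalIntegral.integral_same

/-- the Lipschitz function with slope `φ` -/
def lipG {φ : (ℕ → Bool) → ℝ → ℝ} (h : Good φ) : Lip0 T o :=
  lipOf (prim φ) (prim_zero φ _) (prim_lip h)

lemma lipG_fn {φ : (ℕ → Bool) → ℝ → ℝ} (h : Good φ) (w : ℕ → Bool) (t : ℝ) :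
    (lipG h).fn (mk w t) = prim φ w t := rfl

lemma lipG_norm {φ : (ℕ → Bool) → ℝ → ℝ} (h : Good φ) : ‖lipG h‖ ≤ 1 := lipOf_norm _ _ _

lemma isometry_mk (w : ℕ → Bool) : Isometry (mk w) :=
  Isometry.of_dist_eq fun a b => by rw [dist_ray, Real.dist_eq]

/-- derivative along a branch -/
def D (f : Lip0 T o) (w : ℕ → Bool) (r : ℝ) : ℝ := deriv (fun s => f.fn (mk w s)) r

lemma lip_branch {f : Lip0 T o} (hf : ‖f‖ ≤ 1) (w : ℕ → Bool) :
    LipschitzWith 1 (fun s => f.fn (mk w s)) := by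
  refine LipschitzWith.of_dist_le_mul fun a b => ?_
  have h1 := f.abs_sub_le (mk w a) (mk w b)
  rw [dist_ray] at h1
  rw [Real.dist_eq, Real.dist_eq, NNReal.coe_one]
  exact h1.trans (mul_le_mul_of_nonneg_right hf (abs_nonneg _))

lemma D_good {f : Lip0 T o} (hf : ‖f‖ ≤ 1) : Good (D f) := by
  refine ⟨fun w => measurable_deriv _, fun w r => ?_, fun w w' r hw hr => ?_⟩
  · have := norm_deriv_le_of_lipschitz (x₀ := r) (lip_branch hf w)
    rw [NNReal.coe_one] at this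
    exact this
  · unfold D
    refine Filter.EventuallyEq.deriv_eq ?_
    filter_upwards [Iio_mem_nhds hr] with s hs
    rw [mk_eq (w := w) (w' := w') (c := s) fun _ => le_of_lt hs]

lemma prim_D {f : Lip0 T o} (hf : ‖f‖ ≤ 1) (w : ℕ → Bool) (t : ℝ) :
    prim (D f) w t = f.fn (mk w t) := by
  have h1 : AbsolutelyContinuousOnInterval (fun s => f.fn (mk w s)) 0 t :=
    ((lip_branch hf w).lipschitzOnWith (s := Set.uIcc 0 t)).absolutelyContinuousOnInterval
  have h2 := h1.integral_deriv_eq_sub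
  unfold prim D
  rw [h2, mk_zero, f.fn_base, sub_zero]

open Classical in
/-- restriction of the slope to a set -/
def cut (S : Set T) (φ : (ℕ → Bool) → ℝ → ℝ) (w : ℕ → Bool) (r : ℝ) : ℝ :=
  if mk w r ∈ S then φ w r else 0

lemma cut_good {S : Set T} (hS : ∀ w, MeasurableSet (mk w ⁻¹' S)) {φ : (ℕ → Bool) → ℝ → ℝ} (h : Good φ) :
    Good (cut S φ) := by
  classical
  refine ⟨fun w => ?_, fun w r => ?_, fun w w' r hw hr => ?_⟩
  · exact Measurable.ite (hS w) (h.meas w) measurable_const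
  · unfold cut
    split_ifs
    · exact h.bd w r
    · rw [abs_zero]; exact zero_le_one
  · unfold cut
    rw [mk_eq (w := w) (w' := w') (c := r) fun _ => le_of_lt hr, h.loc w w' r hw hr]

lemma cut_add {S : Set T} (hS : ∀ w, MeasurableSet (mk w ⁻¹' S)) {φ : (ℕ → Bool) → ℝ → ℝ} (h : Good φ)
    (w : ℕ → Bool) (t : ℝ) :
    prim (cut S φ) w t + prim (cut Sᶜ φ) w t = prim φ w t := by
  unfold prim
  rw [← intervalIntegral.integral_add ((cut_good hS h).ii w _ _)
    ((cut_good (S := Sᶜ) (fun w => (hS w).compl) h).ii w _ _)]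
  refine intervalIntegral.integral_congr fun r _ => ?_
  unfold cut
  by_cases hr : mk w r ∈ S
  · simp [hr]
  · simp [hr]

/-- the segment between two points -/
def seg (x y : T) : Set T := {u | dist x u + dist u y = dist x y}

lemma seg_closed (x y : T) : IsClosed (seg x y) :=
  isClosed_eq (by fun_prop) continuous_const

lemma seg_symm (x y : T) : seg x y = seg y x := by
  ext u
  unfold seg
  simp only [Set.mem_ofPred_eq]
  rw [dist_comm x u, dist_comm u y, dist_comm x y, add_comm]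

lemma seg_left {w w' : ℕ → Bool} {t t' r : ℝ} (h1 : gg ⟨w, t⟩ ⟨w', t'⟩ ≤ r) (h2 : r ≤ t) :
    mk w r ∈ seg (mk w t) (mk w' t') := by
  have h3 : gg ⟨w, r⟩ ⟨w', t'⟩ = gg ⟨w, t⟩ ⟨w', t'⟩ :=
    gg_mid (p := ⟨w, t⟩) (q := ⟨w', t'⟩) h1 h2 (gg_right _ _) le_rfl
  unfold seg
  rw [Set.mem_ofPred_eq, dist_mk', dist_mk', dist_mk', h3, gg_ray, min_eq_right h2]
  ring

lemma seg_right {w w' : ℕ → Bool} {t t' r : ℝ} (h1 : gg ⟨w, t⟩ ⟨w', t'⟩ ≤ r) (h2 : r ≤ t') :
    mk w' r ∈ seg (mk w t) (mk w' t') := by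
  rw [seg_symm]
  exact seg_left (by rw [gg_comm]; exact h1) h2

lemma cut_zero {S : Set T} {φ : (ℕ → Bool) → ℝ → ℝ} (h : Good (cut Sᶜ φ)) {w : ℕ → Bool}
    {c t : ℝ} (hct : c ≤ t) (hS : ∀ r, c ≤ r → r ≤ t → mk w r ∈ S) :
    prim (cut Sᶜ φ) w t - prim (cut Sᶜ φ) w c = 0 := by
  rw [prim_sub h]
  refine intervalIntegral.integral_zero_ae ?_
  refine Eventually.of_forall fun r hr => ?_
  rw [Set.uIoc_of_le hct] at hr
  unfold cut
  rw [if_neg]
  exact fun hn => hn (hS r hr.1.le hr.2)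

/-- the complementary part does not see the segments contained in `S` -/
lemma cut_seg {S : Set T} {φ : (ℕ → Bool) → ℝ → ℝ} (h : Good (cut Sᶜ φ)) {x y : T}
    (hS : seg x y ⊆ S) : (lipG h).fn x = (lipG h).fn y := by
  obtain ⟨w, t, rfl⟩ := exists_mk x
  obtain ⟨w', t', rfl⟩ := exists_mk y
  obtain ⟨c, hc, h1, h2, h3, h4⟩ := dist_meet w w' t t'
  rw [lipG_fn, lipG_fn, ← sub_eq_zero, prim_diff h t t' h3,
    cut_zero h h1 (fun r hr hr' => hS (seg_left (hc ▸ hr) hr')),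
    cut_zero h h2 (fun r hr hr' => hS (seg_right (hc ▸ hr) hr')), sub_zero]

end Pool.Agent.Q228.UR
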