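import Mathlib

/-!
# R-trees from the four point condition and geodesics
-/

set_option autoImplicit false

noncomputable section

namespace Pool.Agent.Q228.UR

open Set

/-- `S` is an arc with endpoints `x` and `y` -/
def IsArc {T : Type} [TopologicalSpace T] (x y : T) (S : Set T) : Prop :=
  ∃ φ : unitInterval → T, Continuous φ ∧ Function.Injective φ ∧ φ 0 = x ∧ φ 1 = y ∧ range φ = S

/-- `T` is an `ℝ`-tree: any two distinct points `x`, `y` are joined by a unique arc, and this arc
is isometric to the interval `[0, d(x, y)]` -/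
def IsRTree (T : Type) [MetricSpace T] : Prop :=
  ∀ x y : T, x ≠ y → ∃ S : Set T, IsArc x y S ∧ (∀ S', IsArc x y S' → S' = S) ∧
    ∃ ψ : Icc (0 : ℝ) (dist x y) → T, Isometry ψ ∧ range ψ = S

/-- the four point condition -/
def FPC (T : Type) [MetricSpace T] : Prop := ∀ a b c d : T,
  dist a b + dist c d ≤ max (dist a c + dist b d) (dist a d + dist b c)

variable {T : Type} [MetricSpace T]

lemma sep (h4 : FPC T) {C : Set T} (hC : IsPreconnected C) {q w p : T} (hq : q ∈ C) (hw : w ∈ C)
    (h : dist q w = dist q p + dist p w) : p ∈ C := by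
  by_contra hp
  have hqp : q ≠ p := fun e => hp (e ▸ hq)
  have hwp : w ≠ p := fun e => hp (e ▸ hw)
  set A : Set T := {u | dist q u < dist q p + dist p u} with hAd
  set B : Set T := {u | u ≠ p ∧ dist q u = dist q p + dist p u} with hBd
  have hA : IsOpen A := isOpen_lt (by fun_prop) (by fun_prop)
  have hB : IsOpen B := by
    rw [Metric.isOpen_iff]
    rintro u ⟨hu, hu2⟩
    refine ⟨dist p u, dist_pos.2 (Ne.symm hu), fun u' hu' => ?_⟩
    rw [Metric.mem_ball] at hu'
    have h1 := h4 q u p u'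
    have h2 := dist_triangle q p u'
    have h3 := dist_nonneg (x := p) (y := u')
    have h5 := dist_comm u u'
    have h6 := dist_comm u p
    refine ⟨?_, ?_⟩
    · rintro rfl
      exact lt_irrefl _ hu'
    · rcases le_max_iff.1 h1 with h1 | h1
      · linarith
      · linarith
  obtain ⟨z, -, hz1, hz2⟩ := hC A B hA hB (fun u hu => by
      by_cases hu2 : dist q u = dist q p + dist p u
      · exact Or.inr ⟨fun e => hp (e ▸ hu), hu2⟩
      · exact Or.inl (lt_of_le_of_ne (dist_triangle q p u) hu2)) ⟨q, hq, by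
        have := dist_pos.2 hqp
        show dist q q < dist q p + dist p q
        rw [dist_self, dist_comm p q]
        linarith⟩ ⟨w, hw, hwp, h⟩
  exact absurd hz2.2 (ne_of_lt hz1)

theorem isRTree_of (h4 : FPC T) (hg : ∀ x y : T, x ≠ y → ∃ ψ : ℝ → T, ψ 0 = x ∧
    ψ (dist x y) = y ∧ ∀ a ∈ Icc (0 : ℝ) (dist x y), ∀ b ∈ Icc (0 : ℝ) (dist x y),
      dist (ψ a) (ψ b) = |a - b|) : IsRTree T := by
  intro x y hxy
  obtain ⟨ψ, h0, h1, hiso⟩ := hg x y hxy
  set d := dist x y with hd
  have hd0 : 0 < d := dist_pos.2 hxy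
  have m0 : (0 : ℝ) ∈ Icc 0 d := ⟨le_rfl, hd0.le⟩
  have m1 : d ∈ Icc 0 d := ⟨hd0.le, le_rfl⟩
  refine ⟨ψ '' Icc 0 d, ?_, ?_, ?_⟩
  · have hm : ∀ s : unitInterval, (s : ℝ) * d ∈ Icc 0 d := fun s =>
      ⟨mul_nonneg s.2.1 hd0.le, mul_le_of_le_one_left hd0.le s.2.2⟩
    have hdist : ∀ s s' : unitInterval, dist (ψ (s * d)) (ψ (s' * d)) = d * |(s : ℝ) - s'| := by
      intro s s'
      rw [hiso _ (hm s) _ (hm s'), ← sub_mul, abs_mul, abs_of_pos hd0, mul_comm]
    refine ⟨fun s => ψ (s * d), ?_, ?_, ?_, ?_, ?_⟩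
    · have : LipschitzWith ⟨d, hd0.le⟩ fun s : unitInterval => ψ (s * d) := by
        refine LipschitzWith.of_dist_le_mul fun s s' => ?_
        rw [hdist]
        exact le_of_eq rfl
      exact this.continuous
    · intro s s' h
      have h2 := hdist s s'
      simp only at h
      rw [h, dist_self] at h2
      have h3 : |(s : ℝ) - s'| = 0 := by
        rcases mul_eq_zero.1 h2.symm with h4 | h4
        · exact absurd h4 hd0.ne'
        · exact h4
      exact Subtype.ext (sub_eq_zero.1 (abs_eq_zero.1 h3))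
    · simp [h0]
    · simp [h1]
    · ext z
      constructor
      · rintro ⟨s, rfl⟩
        exact ⟨_, hm s, rfl⟩
      · rintro ⟨a, ha, rfl⟩
        refine ⟨⟨a / d, div_nonneg ha.1 hd0.le, (div_le_one hd0).2 ha.2⟩, ?_⟩
        show ψ (a / d * d) = ψ a
        rw [div_mul_cancel₀ _ hd0.ne']
  · rintro S' ⟨φ, hφ, hinj, hφ0, hφ1, rfl⟩
    apply Subset.antisymm
    · rintro w ⟨s, rfl⟩
      set w := φ s with hw
      by_contra hwS
      set a : ℝ := (d + dist x w - dist y w) / 2 with ha
      have t1 := dist_triangle x w y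
      have t2 := dist_triangle y x w
      have t3 := dist_triangle x y w
      have c1 := dist_comm w y
      have c2 := dist_comm y x
      rw [← hd] at c2
      have haI : a ∈ Icc 0 d := ⟨by linarith, by linarith⟩
      set p := ψ a with hp
      have hxp : dist x p = a := by
        rw [← h0, hp, hiso _ m0 _ haI, zero_sub, abs_neg, abs_of_nonneg haI.1]
      have hyp : dist y p = d - a := by
        rw [← h1, hp, hiso _ m1 _ haI, abs_of_nonneg (by linarith [haI.2])]
      have hpw : dist p w = dist x w - a := by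
        apply le_antisymm
        · have h5 := h4 x y p w
          rcases le_max_iff.1 h5 with h5 | h5 <;> linarith
        · have h5 := dist_triangle x p w
          linarith
      have hxw : dist x w = dist x p + dist p w := by linarith
      have hwy : dist y w = dist y p + dist p w := by linarith
      have hpw' : p ≠ w := fun e => hwS (e ▸ ⟨a, haI, rfl⟩)
      have g1 : p ∈ φ '' Iic s := by
        refine sep h4 ((isPreconnected_Iic).image _ hφ.continuousOn) (q := x) (w := w)
          ⟨0, unitInterval.nonneg', hφ0⟩ ⟨s, mem_Iic.2 le_rfl, rfl⟩ hxw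
      have g2 : p ∈ φ '' Ici s := by
        refine sep h4 ((isPreconnected_Ici).image _ hφ.continuousOn) (q := y) (w := w)
          ⟨1, unitInterval.le_one', hφ1⟩ ⟨s, mem_Ici.2 le_rfl, rfl⟩ hwy
      obtain ⟨s1, hs1, e1⟩ := g1
      obtain ⟨s2, hs2, e2⟩ := g2
      have e3 : s1 = s2 := hinj (e1.trans e2.symm)
      have e4 : s1 = s := le_antisymm hs1 (e3 ▸ hs2)
      exact hpw' (by rw [← e1, e4])
    · rintro z ⟨a, ha, rfl⟩
      have hz1 : dist x (ψ a) = a := by
        rw [← h0, hiso _ m0 _ ha, zero_sub, abs_neg, abs_of_nonneg ha.1]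
      have hz2 : dist (ψ a) y = d - a := by
        rw [← h1, hiso _ ha _ m1, abs_sub_comm, abs_of_nonneg (by linarith [ha.2])]
      exact sep h4 (isPreconnected_range hφ) (q := x) (w := y) ⟨0, hφ0⟩ ⟨1, hφ1⟩ (by
        rw [hz1, hz2, ← hd]; ring)
  · refine ⟨fun r => ψ r, ?_, ?_⟩
    · refine Isometry.of_dist_eq fun r r' => ?_
      rw [hiso _ r.2 _ r'.2, Subtype.dist_eq, Real.dist_eq]
    · ext z
      constructor
      · rintro ⟨r, rfl⟩
        exact ⟨r, r.2, rfl⟩
      · rintro ⟨a, ha, rfl⟩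
        exact ⟨⟨a, ha⟩, rfl⟩

end Pool.Agent.Q228.UR
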