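import Pool.Agent.Q228.UR.Gam

/-!
# Uniform regularity of `{γ_m}`
-/

set_option autoImplicit false

noncomputable section

namespace Pool.Agent.Q228.UR

open Set Finset Filter Topology MeasureTheory
open Pool.Agent.H266R3.LF (Lip0 dlt dlt_mem dlt_apply LFree FreeSp norm_dlt_sub_le inc)

lemma hh_ge {w w' : ℕ → Bool} {n : ℕ} (h : ∀ j < n ^ 2, w j = w' j) (hne : w ≠ w') :
    H n ≤ hh w w' := by
  unfold hh
  refine H_mono ?_
  rw [Nat.le_sqrt']
  by_contra hcon
  exact PiNat.apply_firstDiff_ne hne (h _ (by omega))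

/-- the end of a branch -/
def e (w : ℕ → Bool) : T := mk w Hi

lemma gg_agree {w w' : ℕ → Bool} {n : ℕ} {s t : ℝ} (h : ∀ j < n ^ 2, w j = w' j)
    (hs : H n ≤ s) (ht : H n ≤ t) : H n ≤ gg ⟨w, s⟩ ⟨w', t⟩ := by
  by_cases hw : w = w'
  · subst hw
    rw [gg_ray]
    exact le_min hs ht
  · rw [gg_diff (p := ⟨w, s⟩) (q := ⟨w', t⟩) hw]
    exact le_min (le_min hs ht) (hh_ge h hw)

lemma e_cont : Continuous e := by
  rw [continuous_iff_continuousAt]
  intro w
  rw [ContinuousAt, Metric.tendsto_nhds]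
  intro ε hε
  obtain ⟨n, hn⟩ := ((tendsto_order.1 H_tendsto).1 (Hi - ε / 2) (by linarith)).exists
  have h1 : ∀ᶠ w' in 𝓝 w, ∀ j ∈ Finset.range (n ^ 2), w' j = w j := by
    rw [Filter.eventually_all_finset]
    intro j _
    have h2 : Tendsto (fun w' : ℕ → Bool => w' j) (𝓝 w) (𝓝 (w j)) := (continuous_apply j).tendsto w
    have h3 : {w j} ∈ 𝓝 (w j) := isOpen_discrete {w j} |>.mem_nhds rfl
    exact h2 h3
  filter_upwards [h1] with w' hw'
  have h4 : H n ≤ gg ⟨w', Hi⟩ ⟨w, Hi⟩ :=
    gg_agree (fun j hj => hw' j (Finset.mem_range.2 hj)) (H_le n) (H_le n)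
  unfold e
  rw [dist_mk']
  linarith

/-- fair coin -/
def coin : Measure Bool := ProbabilityTheory.uniformOn Set.univ

instance : IsProbabilityMeasure coin :=
  ProbabilityTheory.isProbabilityMeasure_uniformOn Set.finite_univ Set.univ_nonempty

lemma coin_singleton (b : Bool) : coin {b} = ENNReal.ofReal (1 / 2) := by
  unfold coin
  rw [ProbabilityTheory.uniformOn_univ, Measure.count_singleton]
  simp [ENNReal.ofReal_inv_of_pos]

/-- coin tossing measure -/
def mu : Measure (ℕ → Bool) := Measure.infinitePi fun _ => coin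

instance : IsProbabilityMeasure mu := by unfold mu; infer_instance

/-- the cylinder of a word -/
def Cyl {n : ℕ} (v : Fin n → Bool) : Set (ℕ → Bool) := {w | ∀ j < n, w j = ext v j}

lemma Cyl_eq {n : ℕ} (v : Fin n → Bool) :
    Cyl v = Set.pi (Finset.range n : Set ℕ) fun j => {ext v j} := by
  ext w
  simp [Cyl, Set.mem_pi]

lemma mu_Cyl {n : ℕ} (v : Fin n → Bool) : mu (Cyl v) = ENNReal.ofReal ((1 / 2) ^ n) := by
  rw [Cyl_eq]
  unfold mu
  rw [Measure.infinitePi_pi _ (fun i _ => measurableSet_singleton _)]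
  simp only [coin_singleton]
  rw [Finset.prod_const, Finset.card_range, ENNReal.ofReal_pow (by norm_num)]

lemma Cyl_meas {n : ℕ} (v : Fin n → Bool) : MeasurableSet (Cyl v) := by
  rw [Cyl_eq]
  exact MeasurableSet.pi (Finset.countable_toSet _) fun i _ => measurableSet_singleton _

lemma bad_le {S : Set (ℕ → Bool)} {ε : ℝ} (h : mu S ≤ ENNReal.ofReal ε) (hε : 0 ≤ ε) {m : ℕ}
    (B : Finset (V m)) (hB : ∀ v ∈ B, Cyl v ⊆ S) : (B.card : ℝ) * ell m ≤ ε := by
  have h1 : mu (⋃ v ∈ B, Cyl v) = ∑ v ∈ B, mu (Cyl v) := by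
    refine measure_biUnion_finset (fun v _ v' _ hne => ?_) fun v _ => Cyl_meas v
    rw [Function.onFun, Set.disjoint_left]
    intro w hw hw'
    exact hne (ext_inj fun j hj => (hw j hj).symm.trans (hw' j hj))
  have h2 : mu (⋃ v ∈ B, Cyl v) ≤ ENNReal.ofReal ε :=
    (measure_mono (Set.iUnion₂_subset hB)).trans h
  rw [h1] at h2
  simp only [mu_Cyl] at h2
  rw [Finset.sum_const, nsmul_eq_mul, ← ENNReal.ofReal_natCast,
    ← ENNReal.ofReal_mul (by positivity), ENNReal.ofReal_le_ofReal_iff hε] at h2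
  exact h2

lemma tail_le (m : ℕ) : (Fintype.card (V m) : ℝ) * (Hi - H (m + 1)) ≤ (1 / 2) ^ m := by
  have h1 : Hi - H (m + 1) = ∑' k, ell (k + (m + 1)) := by
    have := ell_summable.sum_add_tsum_nat_add (m + 1)
    unfold Hi H
    linarith
  have h2 : ∑' k, ell (k + (m + 1)) ≤ ∑' k, ell m * (1 / 2) ^ (m + 1) * (1 / 2 : ℝ) ^ k := by
    refine Summable.tsum_le_tsum (fun k => ?_) ((summable_nat_add_iff (m + 1)).2 ell_summable)
      ((summable_geometric_of_lt_one (by norm_num) (by norm_num)).mul_left _)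
    unfold ell
    rw [← pow_add, ← pow_add]
    refine pow_le_pow_of_le_one (by norm_num) (by norm_num) ?_
    nlinarith
  rw [tsum_mul_left, tsum_geometric_of_lt_one (by norm_num) (by norm_num)] at h2
  rw [h1]
  have h3 := card_V m
  have h4 : (0 : ℝ) ≤ Fintype.card (V m) := by positivity
  calc (Fintype.card (V m) : ℝ) * ∑' k, ell (k + (m + 1))
      ≤ Fintype.card (V m) * (ell m * (1 / 2) ^ (m + 1) * (1 - 1 / 2)⁻¹) :=
        mul_le_mul_of_nonneg_left h2 h4
    _ = (Fintype.card (V m) * ell m) * (1 / 2) ^ m := by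
        rw [show ((1 : ℝ) / 2) ^ (m + 1) = (1 / 2) ^ m * (1 / 2) from pow_succ _ _]
        ring
    _ = _ := by rw [h3, one_mul]

/-- the closed linear span of `δ(x)`, `x ∈ A` -/
def freeOn (A : Set T) : Submodule ℝ (FreeSp T o) := (Submodule.span ℝ (dl '' A)).topologicalClosure

lemma dl_mem {A : Set T} {x : T} (h : x ∈ A) : dl x ∈ freeOn A :=
  Submodule.le_topologicalClosure _ (Submodule.subset_span ⟨x, h, rfl⟩)

theorem unifReg (U : Set T) (hU : IsOpen U) (ε : ℝ) (hε : 0 < ε) : ∃ K : Set T, IsCompact K ∧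
    K ⊆ U ∧ ∀ m, ∃ v ∈ freeOn (K ∪ Uᶜ), ‖gam m - v‖ ≤ ε := by
  classical
  obtain ⟨K', hK'U, hK'c, hK'm⟩ := (hU.preimage e_cont).measurableSet.exists_isCompact_sdiff_lt
    (μ := mu) (measure_ne_top _ _) (ε := ENNReal.ofReal (ε / 4))
    (by rw [Ne, ENNReal.ofReal_eq_zero, not_le]; positivity)
  obtain ⟨N0, hN0⟩ : ∃ N0 : ℕ, ∀ m, N0 ≤ m → (1 / 2 : ℝ) ^ m ≤ ε / 2 := by
    obtain ⟨N0, h⟩ := exists_pow_lt_of_lt_one (by positivity : (0 : ℝ) < ε / 2)
      (by norm_num : (1 / 2 : ℝ) < 1)
    exact ⟨N0, fun m hm => (pow_le_pow_of_le_one (by norm_num) (by norm_num) hm).trans h.le⟩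
  set F : Set T := (⋃ m ∈ Finset.range N0, Set.range (top (m := m))) ∩ U with hF
  have hFfin : F.Finite :=
    ((Finset.finite_toSet (Finset.range N0)).biUnion fun m _ => Set.finite_range _).subset
      Set.inter_subset_left
  refine ⟨e '' K' ∪ F, (hK'c.image e_cont).union hFfin.isCompact, ?_, fun m => ?_⟩
  · rintro x (⟨w, hw, rfl⟩ | hx)
    · exact hK'U hw
    · exact hx.2
  set A : Set T := (e '' K' ∪ F) ∪ Uᶜ with hA
  rcases lt_or_ge m N0 with hm | hm
  · refine ⟨gam m, ?_, by rw [sub_self, norm_zero]; exact hε.le⟩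
    unfold gam
    refine Submodule.sum_mem _ fun v _ => Submodule.smul_mem _ _ (dl_mem ?_)
    by_cases hv : top v ∈ U
    · refine Or.inl (Or.inr ⟨?_, hv⟩)
      exact Set.mem_biUnion (Finset.mem_coe.2 (Finset.mem_range.2 hm)) ⟨v, rfl⟩
    · exact Or.inr hv
  · set S : Set (ℕ → Bool) := e ⁻¹' U \ K' with hS
    have hch : ∀ v : V m, ∃ c : T, Cyl v ⊆ S ∨ (c ∈ A ∧ dist (top v) c ≤ Hi - H (m + 1)) := by
      intro v
      by_cases h : Cyl v ⊆ S
      · exact ⟨o, Or.inl h⟩
      · rw [Set.not_subset] at h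
        obtain ⟨w, hw, hwS⟩ := h
        refine ⟨e w, Or.inr ⟨?_, ?_⟩⟩
        · by_cases h1 : e w ∈ U
          · have h2 : w ∈ K' := by
              by_contra h3
              exact hwS ⟨h1, h3⟩
            exact Or.inl (Or.inl ⟨w, h2, rfl⟩)
          · exact Or.inr h1
        · have h3 : H (m + 1) ≤ gg ⟨ext v, H (m + 1)⟩ ⟨w, Hi⟩ :=
            gg_agree (fun j hj => (hw j hj).symm) le_rfl (H_le _)
          unfold top e
          rw [dist_mk']
          linarith
    choose c hc using hch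
    set Bd : V m → Prop := fun v => Cyl v ⊆ S with hBd
    refine ⟨∑ v : V m, if Bd v ∨ Bd (fl v) then 0 else (sg v / 2) • (dl (c v) - dl (c (fl v))),
      ?_, ?_⟩
    · refine Submodule.sum_mem _ fun v _ => ?_
      split_ifs with h
      · exact Submodule.zero_mem _
      · rw [not_or] at h
        refine Submodule.smul_mem _ _ (Submodule.sub_mem _ (dl_mem ?_) (dl_mem ?_))
        · exact ((hc v).resolve_left h.1).1
        · exact ((hc (fl v)).resolve_left h.2).1
    · rw [gam_pair, ← Finset.sum_sub_distrib]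
      have hterm : ∀ v : V m, ‖(sg v / 2) • (dl (top v) - dl (top (fl v))) -
          (if Bd v ∨ Bd (fl v) then 0 else (sg v / 2) • (dl (c v) - dl (c (fl v))))‖ ≤
          ((if Bd v then ell m else 0) + (if Bd (fl v) then ell m else 0)) +
            (Hi - H (m + 1)) := by
        intro v
        have hl := ell_pos m
        have hH : 0 ≤ Hi - H (m + 1) := sub_nonneg.2 (H_le _)
        have h2 : |sg v / 2| = 1 / 2 := by
          rw [abs_div, abs_sg, abs_of_pos (by norm_num : (0 : ℝ) < 2)]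
        by_cases h : Bd v ∨ Bd (fl v)
        · rw [if_pos h, sub_zero, norm_smul, Real.norm_eq_abs, h2]
          have h3 := norm_dl_sub (top v) (top (fl v))
          rw [dist_fl] at h3
          have h4 : ell m ≤ (if Bd v then ell m else 0) + (if Bd (fl v) then ell m else 0) := by
            rcases h with h | h
            · rw [if_pos h]; split_ifs <;> linarith
            · rw [if_pos h]; split_ifs <;> linarith
          linarith
        · rw [if_neg h]
          rw [not_or] at h
          rw [if_neg h.1, if_neg h.2, ← smul_sub, norm_smul, Real.norm_eq_abs, h2]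
          have h3 := (norm_dl_sub (top v) (c v)).trans ((hc v).resolve_left h.1).2
          have h4 := (norm_dl_sub (top (fl v)) (c (fl v))).trans
            ((hc (fl v)).resolve_left h.2).2
          have h5 : dl (top v) - dl (top (fl v)) - (dl (c v) - dl (c (fl v))) =
              (dl (top v) - dl (c v)) - (dl (top (fl v)) - dl (c (fl v))) := by abel
          rw [h5]
          have h6 := norm_sub_le (dl (top v) - dl (c v)) (dl (top (fl v)) - dl (c (fl v)))
          linarith
      refine (norm_sum_le _ _).trans ((Finset.sum_le_sum fun v _ => hterm v).trans ?_)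
      rw [Finset.sum_add_distrib, Finset.sum_add_distrib]
      have s1 : ∑ v : V m, (if Bd (fl v) then ell m else 0) =
          ∑ v : V m, (if Bd v then ell m else 0) :=
        Equiv.sum_comp (flE m) (fun v : V m => if Bd v then ell m else 0)
      have s2 : ∑ v : V m, (if Bd v then ell m else 0) ≤ ε / 4 := by
        rw [← Finset.sum_filter, Finset.sum_const, nsmul_eq_mul]
        exact bad_le (S := S) hK'm.le (by positivity) _ fun v hv => (Finset.mem_filter.1 hv).2
      have s3 : ∑ _v : V m, (Hi - H (m + 1)) ≤ ε / 2 := by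
        rw [Finset.sum_const, nsmul_eq_mul, Finset.card_univ]
        exact (tail_le m).trans (hN0 m hm)
      rw [s1]
      linarith

end Pool.Agent.Q228.UR
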